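import Pool.Agent.MP_9f168b_al.Simple

namespace Pool.Agent.Results.MP_9f168b_al.NonDividing

open Pool.Agent.MP_9f168b_al

/-- For every odd `m ≥ 3` there is a finite simple solution of the Yang-Baxter equation on
`X = Y × Z` with `|Y| = m` and `|Z| = 4` whose sets `X_y` are blocks of imprimitivity for
`𝒢(X, r)`, and `|Z|` does not divide `|Y|`. -/
theorem result (m : ℕ) (hm : Odd m) (hm3 : 3 ≤ m) :
    ∃ (Y Z : Type) (_ : Finite Y) (_ : Finite Z)
      (r : (Y × Z) × (Y × Z) → (Y × Z) × (Y × Z)),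
      IsSimple r ∧ AreBlocks r ∧ Nat.card Y = m ∧ Nat.card Z = 4 ∧
        ¬ Nat.card Z ∣ Nat.card Y := by
  have : NeZero m := ⟨by omega⟩
  have hY : Nat.card (ZMod m) = m := Nat.card_zmod m
  have hZ : Nat.card (Bool × Bool) = 4 := by simp
  refine ⟨ZMod m, Bool × Bool, inferInstance, inferInstance, ofSigma (fam m),
    fam_simple hm (by omega), fam_areBlocks m, hY, hZ, ?_⟩
  rw [hY, hZ]
  intro h
  obtain ⟨k, hk⟩ := hm
  omega

end Pool.Agent.Results.MP_9f168b_al.NonDividing
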